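import Pool.Agent.Helper70.TW.Goals

/-! Packet TW-GSTEP: halving the degrees. -/

set_option autoImplicit false

namespace Pool.Agent.Helper58.GSTEP

open MvPolynomial Pool.Agent.Helper70.BU Pool.Agent.Helper70.TW

universe u

/-- the norm -/
def nm {K : Type u} [CommRing K] (x : GF K) : K := x.re ^ 2 + x.im ^ 2

lemma mul_star_eq {K : Type u} [CommRing K] (x : GF K) :
    x * star x = algebraMap K (GF K) (nm x) := by
  ext
  · simp only [nm, QuadraticAlgebra.re_mul, QuadraticAlgebra.re_star, QuadraticAlgebra.im_star,
      QuadraticAlgebra.algebraMap_re]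
    ring
  · simp only [nm, QuadraticAlgebra.im_mul, QuadraticAlgebra.re_star, QuadraticAlgebra.im_star,
      QuadraticAlgebra.algebraMap_im]
    ring

/-- doubling of exponents -/
def dbl {p : ℕ} (m : Fin p → ℕ) : Sc p → ℕ
  | none => 0
  | some (Sum.inl k) => m k
  | some (Sum.inr k) => m k

lemma swp_dbl {p : ℕ} (m : Fin p → ℕ) : swp (dbl m) = dbl m := by
  funext x
  rcases x with _ | x | x <;> rfl

lemma eval_scale {K : Type u} [CommRing K] {n d : ℕ} {f : MvPolynomial (Fin n) K}
    (hf : f.IsHomogeneous d) (c : K) (x : Fin n → K) :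
    eval (fun i => c * x i) f = c ^ d * eval x f := by
  rw [eval_eq', eval_eq', Finset.mul_sum]
  refine Finset.sum_congr rfl (fun m hm => ?_)
  have h1 : ∑ i, m i = d := by
    rw [hf.degree_eq_sum_deg_support hm]
    symm
    apply Finset.sum_subset (Finset.subset_univ _)
    intro i _ hi
    simpa using hi
  have h2 : ∏ i, (c * x i) ^ m i = c ^ d * ∏ i, x i ^ m i := by
    rw [← h1, ← Finset.prod_pow_eq_pow_sum, ← Finset.prod_mul_distrib]
    exact Finset.prod_congr rfl (fun i _ => mul_pow _ _ _)
  rw [h2]
  ring

lemma card_anti {α : Type} [Fintype α] [DecidableEq α] (e : ℕ) :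
    (Finset.piAntidiag (Finset.univ : Finset α) e).card = (Fintype.card α + e - 1).choose e := by
  rw [← Finset.map_sym_eq_piAntidiag, Finset.card_map, Finset.sym_univ, Finset.card_univ,
    Sym.card_sym_eq_choose]

lemma form (hQE : QE.{u}) (hQS : QS.{u}) {K : Type u} [Field K] [CharZero K] {n p e d : ℕ}
    (f : MvPolynomial (Fin n) K) (hf : f.IsHomogeneous e) (z : Fin n × Fin p → GF K)
    (hz : ∀ m : Sc p → ℕ, ∑ τ, m τ = e →
      (fun k => m (some (Sum.inl k))) ≠ (fun k => m (some (Sum.inr k))) →
      evs z (cf p 0 f m) = 0) (he : 1 ≤ e) (hed : e ≤ d) (hd : 2 ≤ d) :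
    ∃ (Q : MvPolynomial (Fin p) K) (e' : ℕ), (1 ≤ e' ∧ e' ≤ d / 2) ∧ Q.IsHomogeneous e' ∧
      ∀ l : Fin p → GF K, eval (vec 0 z l 0) f = eval (fun k => nm (l k)) Q := by
  classical
  -- terms which vanish
  have hterm : ∀ (l : Fin p → GF K) (m : Sc p → ℕ), ∑ τ, m τ = e →
      (∀ m' : Fin p → ℕ, m ≠ dbl m') →
      evs z (cf p 0 f m) * (∏ k, (l k ^ m (some (Sum.inl k)) *
          star (l k) ^ m (some (Sum.inr k)))) * algebraMap K (GF K) 0 ^ m none = 0 := by
    intro l m hm hdb
    by_cases h0 : m none = 0
    · have h1 : evs z (cf p 0 f m) = 0 := by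
        apply hz m hm
        intro h
        apply hdb (fun k => m (some (Sum.inl k)))
        funext x
        rcases x with _ | x | x
        · exact h0
        · rfl
        · exact (congrFun h x).symm
      rw [h1, zero_mul, zero_mul]
    · rw [map_zero, zero_pow h0, mul_zero]
  have hdsum : ∀ m' : Fin p → ℕ, ∑ τ, dbl m' τ = 2 * ∑ k, m' k := by
    intro m'
    rw [Fintype.sum_option, Fintype.sum_sum_type]
    show 0 + (∑ k, m' k + ∑ k, m' k) = _
    ring
  rcases Nat.even_or_odd' e with ⟨c, hc | hc⟩
  · refine ⟨∑ m ∈ Finset.piAntidiag (Finset.univ : Finset (Fin p)) c,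
      monomial (Finsupp.equivFunOnFinite.symm m) (evs z (cf p 0 f (dbl m))).re, c,
      ⟨by omega, by omega⟩, ?_, ?_⟩
    · apply IsHomogeneous.sum
      intro m hm
      apply isHomogeneous_monomial
      rw [Finset.mem_piAntidiag] at hm
      rw [← hm.1, Finsupp.degree_eq_sum]
      rfl
    · intro l
      apply QuadraticAlgebra.algebraMap_injective (a := -1) (b := 0)
      rw [hQE K n p e 0 f hf z l 0]
      rw [← Finset.sum_of_injOn (s := Finset.piAntidiag (Finset.univ : Finset (Fin p)) c)
        (f := fun m' => evs z (cf p 0 f (dbl m')) *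
          (∏ k, (l k ^ m' k * star (l k) ^ m' k)) * 1) dbl ?_ ?_ ?_ ?_]
      · rw [map_sum, map_sum]
        refine Finset.sum_congr rfl (fun m _ => ?_)
        have h1 := hQS K n p 0 f (dbl m) z
        rw [swp_dbl] at h1
        have h2 : evs z (cf p 0 f (dbl m)) =
            algebraMap K (GF K) (evs z (cf p 0 f (dbl m))).re := by
          have h3 := congrArg QuadraticAlgebra.im h1
          rw [QuadraticAlgebra.im_star] at h3
          have h4 : (evs z (cf p 0 f (dbl m))).im = 0 := by
            have : (2 : K) * (evs z (cf p 0 f (dbl m))).im = 0 := by linear_combination -h3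
            rcases mul_eq_zero.1 this with h | h
            · exact absurd h two_ne_zero
            · exact h
          ext
          · rfl
          · exact h4
        rw [h2, eval_monomial, map_mul, mul_one]
        congr 1
        rw [Finsupp.prod_fintype _ _ (fun i => pow_zero _), map_prod]
        refine Finset.prod_congr rfl (fun k _ => ?_)
        rw [map_pow, ← mul_star_eq, mul_pow]
        rfl
      · intro m1 _ m2 _ h
        funext k
        exact congrFun h (some (Sum.inl k))
      · intro m hm
        rw [Finset.mem_coe, Finset.mem_piAntidiag] at hm ⊢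
        refine ⟨?_, fun i _ => Finset.mem_univ i⟩
        rw [hdsum, hm.1, hc]
      · intro m hm hm2
        rw [Finset.mem_piAntidiag] at hm
        apply hterm l m hm.1
        intro m' h
        apply hm2
        refine ⟨m', ?_, h.symm⟩
        rw [Finset.mem_coe, Finset.mem_piAntidiag]
        refine ⟨?_, fun i _ => Finset.mem_univ i⟩
        show ∑ k, m' k = c
        have h5 : ∑ τ, m τ = e := hm.1
        rw [h, hdsum] at h5
        omega
      · intro m _
        show _ = evs z (cf p 0 f (dbl m)) * (∏ k, (l k ^ m k * star (l k) ^ m k)) *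
          algebraMap K (GF K) 0 ^ 0
        rw [pow_zero]
  · refine ⟨0, 1, ⟨le_rfl, by omega⟩, isHomogeneous_zero _ _ _, ?_⟩
    intro l
    apply QuadraticAlgebra.algebraMap_injective (a := -1) (b := 0)
    rw [hQE K n p e 0 f hf z l 0, map_zero, map_zero]
    apply Finset.sum_eq_zero
    intro m hm
    rw [Finset.mem_piAntidiag] at hm
    rw [← map_zero (algebraMap K (GF K))]
    rw [hterm l m hm.1, map_zero]
    intro m' h
    have h5 := hm.1
    rw [h, hdsum] at h5
    omega

/-- the unbalanced exponents -/
def U {p : ℕ} (e : ℕ) : Finset (Sc p → ℕ) :=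
  (Finset.piAntidiag (Finset.univ : Finset (Sc p)) e).filter
    (fun m => (fun k => m (some (Sum.inl k))) ≠ (fun k => m (some (Sum.inr k))))

lemma card_U {p e d : ℕ} (hed : e ≤ d) : (U (p := p) e).card ≤ (2 * p + d).choose d := by
  have h1 : (U (p := p) e).card ≤ _ := Finset.card_filter_le _ _
  rw [card_anti] at h1
  have h2 : Fintype.card (Sc p) = 2 * p + 1 := by
    simp only [Sc, Fintype.card_option, Fintype.card_sum, Fintype.card_fin]
    ring
  rw [h2, show 2 * p + 1 + e - 1 = 2 * p + e by omega] at h1
  refine h1.trans ?_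
  rw [Nat.choose_symm_add.symm, Nat.choose_symm_add.symm]
  exact Nat.choose_le_choose _ (by omega)

lemma bn_snd {n p : ℕ} (k : Fin p) : bn (Prod.snd : Fin n × Fin p → Fin p) k = n := by
  unfold bn
  rw [Finset.card_filter, Fintype.sum_prod_type]
  simp

theorem gstep (hQH : QH.{u}) (hQE : QE.{u}) (hQS : QS.{u}) : GSTEP.{u} := by
  classical
  intro K _ _ _ h2 hT r d p n hd hPB hn e f he hf
  have hbound : ∑ l : (Σ j : Fin r, {m // m ∈ U (p := p) (e j)}),
      (∑ k', (l.2.1 (some (Sum.inl k')) + l.2.1 (some (Sum.inr k')))) ^ 1 < n := by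
    refine lt_of_le_of_lt ?_ hn
    rw [Fintype.sum_sigma]
    calc ∑ j : Fin r, ∑ m : {m // m ∈ U (p := p) (e j)},
          (∑ k', (m.1 (some (Sum.inl k')) + m.1 (some (Sum.inr k')))) ^ 1
        ≤ ∑ j : Fin r, (2 * p + d).choose d * d := by
          refine Finset.sum_le_sum (fun j _ => ?_)
          calc ∑ m : {m // m ∈ U (p := p) (e j)},
                (∑ k', (m.1 (some (Sum.inl k')) + m.1 (some (Sum.inr k')))) ^ 1
              ≤ ∑ _m : {m // m ∈ U (p := p) (e j)}, d := by
                refine Finset.sum_le_sum (fun m _ => ?_)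
                have hm := m.2
                unfold U at hm
                rw [Finset.mem_filter, Finset.mem_piAntidiag] at hm
                have h1 : ∑ τ, m.1 τ = e j := hm.1.1
                rw [Fintype.sum_option, Fintype.sum_sum_type] at h1
                rw [pow_one, Finset.sum_add_distrib]
                have h3 := (he j).2
                omega
            _ = (U (p := p) (e j)).card * d := by
                rw [Finset.sum_const, Finset.card_univ, Fintype.card_coe, smul_eq_mul]
            _ ≤ (2 * p + d).choose d * d := Nat.mul_le_mul_right _ (card_U (he j).2)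
      _ = r * d * (2 * p + d).choose d := by
          rw [Finset.sum_const, Finset.card_univ, Fintype.card_fin, smul_eq_mul]
          ring
  obtain ⟨z, hz1, hz2⟩ := hT (Fin n × Fin p) (Fin p) (Σ j : Fin r, {m // m ∈ U (p := p) (e j)})
    Prod.snd (fun l k => l.2.1 (some (Sum.inl k))) (fun l k => l.2.1 (some (Sum.inr k)))
    (fun l => by
      have hm := l.2.2
      unfold U at hm
      exact (Finset.mem_filter.1 hm).2)
    (fun k => by rw [bn_snd]; exact hbound)
    (fun l => cf p 0 (f l.1) l.2.1) (fun l => hQH K n p 0 (f l.1) l.2.1)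
  have hform := fun j => form hQE hQS (d := d) (f j) (hf j) z (fun m hm hne =>
    hz2 ⟨j, ⟨m, by
      unfold U
      rw [Finset.mem_filter, Finset.mem_piAntidiag]
      exact ⟨⟨hm, fun i _ => Finset.mem_univ i⟩, hne⟩⟩⟩) (he j).1 (he j).2 hd
  choose Q e' hQ1 hQ2 hQ3 using hform
  obtain ⟨q, hq, hq2⟩ := hPB e' Q hQ1 hQ2
  choose X Y hXY using h2
  obtain ⟨l, hle⟩ : ∃ l : Fin p → GF K, l = fun k => if q k = 0 then 0 else ⟨X (q k), Y (q k)⟩ :=
    ⟨_, rfl⟩
  have hl : ∀ k, nm (l k) = q k := by
    intro k
    rw [hle]
    dsimp only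
    split_ifs with h
    · rw [h]
      simp [nm]
    · exact hXY (q k)
  have hl' : (fun k => nm (l k)) = q := funext hl
  by_cases hx : vec 0 z l 0 = 0
  · obtain ⟨k, hk⟩ := Function.ne_iff.1 hq
    have hk' : q k ≠ 0 := hk
    -- the vector with one entry
    have hy : ∀ j, eval (vec 0 z (Pi.single k (l k)) 0) (f j) = 0 := by
      intro j
      have e1 : (fun i => (2 : K) * vec 0 z (Pi.single k (l k)) 0 i) =
          vec 0 z (fun k' => if k' = k then l k else - l k') 0 := by
        funext i
        have h0 := congrFun hx i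
        have h3 : (2 : K) * vec 0 z (Pi.single k (l k)) 0 i =
            2 * vec 0 z (Pi.single k (l k)) 0 i - vec 0 z l 0 i := by
          rw [h0]; simp
        rw [h3]
        unfold vec
        simp only [zero_mul, add_zero]
        rw [Finset.mul_sum, ← Finset.sum_sub_distrib]
        refine Finset.sum_congr rfl (fun k' _ => ?_)
        by_cases hkk : k' = k
        · subst hkk
          rw [Pi.single_eq_same, if_pos rfl]
          ring
        · rw [Pi.single_eq_of_ne hkk, if_neg hkk, neg_mul, QuadraticAlgebra.re_neg, zero_mul,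
            QuadraticAlgebra.re_zero]
          ring
      have e2 := eval_scale (hf j) 2 (vec 0 z (Pi.single k (l k)) 0)
      rw [e1, hQ3 j] at e2
      have e3 : (fun k' => nm (if k' = k then l k else - l k')) = q := by
        funext k'
        by_cases hkk : k' = k
        · subst hkk
          rw [if_pos rfl, hl]
        · rw [if_neg hkk, ← hl k']
          simp [nm]
      rw [e3, hq2 j] at e2
      rcases mul_eq_zero.1 e2.symm with h | h
      · exact absurd h (pow_ne_zero _ two_ne_zero)
      · exact h
    have hs : ∀ (x : GF K) j, eval (vec 0 z (Pi.single k x) 0) (f j) = 0 := by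
      intro x j
      rw [hQ3 j]
      have e1 : (fun k' => nm ((Pi.single k x : Fin p → GF K) k')) =
          fun k' => (nm x / q k) * nm ((Pi.single k (l k) : Fin p → GF K) k') := by
        funext k'
        by_cases hkk : k' = k
        · subst hkk
          rw [Pi.single_eq_same, Pi.single_eq_same, hl]
          field_simp
        · rw [Pi.single_eq_of_ne hkk, Pi.single_eq_of_ne hkk]
          simp [nm]
      rw [e1, eval_scale (hQ2 j), ← hQ3 j, hy j, mul_zero]
    obtain ⟨⟨i, k0⟩, hk0, hzi⟩ := hz1 k
    have hk0' : k0 = k := hk0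
    subst hk0'
    have hval : ∀ x : GF K, vec 0 z (Pi.single k0 x) 0 i = 2 * (x * z (i, k0)).re := by
      intro x
      unfold vec
      rw [zero_mul, add_zero, Finset.sum_eq_single k0]
      · rw [Pi.single_eq_same]
      · intro k' _ hkk
        rw [Pi.single_eq_of_ne hkk, zero_mul, QuadraticAlgebra.re_zero, mul_zero]
      · intro h
        exact absurd (Finset.mem_univ _) h
    by_cases hre : (z (i, k0)).re = 0
    · have him : (z (i, k0)).im ≠ 0 := by
        intro h
        apply hzi
        ext
        · exact hre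
        · exact h
      refine ⟨vec 0 z (Pi.single k0 ⟨0, 1⟩) 0, ?_, hs _⟩
      intro h
      have h1 := congrFun h i
      rw [hval] at h1
      simp only [QuadraticAlgebra.re_mul, Pi.zero_apply] at h1
      apply him
      have : (2 : K) * (z (i, k0)).im = 0 := by linear_combination -h1
      rcases mul_eq_zero.1 this with h | h
      · exact absurd h two_ne_zero
      · exact h
    · refine ⟨vec 0 z (Pi.single k0 1) 0, ?_, hs _⟩
      intro h
      have h1 := congrFun h i
      rw [hval, one_mul] at h1
      apply hre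
      rcases mul_eq_zero.1 h1 with h | h
      · exact absurd h two_ne_zero
      · exact h
  · refine ⟨vec 0 z l 0, hx, fun j => ?_⟩
    rw [hQ3 j, hl']
    exact hq2 j

end Pool.Agent.Helper58.GSTEP
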